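import Pool.Agent.Helper79.GL4.GoalsA
import Pool.Agent.Helper79.GL4.Lib2

/-!
# GL4: packet S5C (orders), MP_27a5f8_al
-/

set_option linter.unusedVariables false
set_option linter.deprecated false

namespace Pool.Agent.Helper16.S5CProof

open Module GL4

attribute [local instance] GL4.subAct

section
variable {F : Type} [Field F] {V : Type} [AddCommGroup V] [Module F V]

theorem mem_stab {k : V ≃ₗ[F] V} {P : Submodule F V} :
    k ∈ MulAction.stabilizer (V ≃ₗ[F] V) P ↔ im k P = P := Iff.rfl

theorem card_stab (K : Subgroup (V ≃ₗ[F] V)) (P : Submodule F V) (hf : FaithQ K P) :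
    Nat.card (K ⊓ MulAction.stabilizer (V ≃ₗ[F] V) P : Subgroup (V ≃ₗ[F] V)) =
      Nat.card (qGrp K P) := by
  let f : (K ⊓ MulAction.stabilizer (V ≃ₗ[F] V) P : Subgroup (V ≃ₗ[F] V)) → qGrp K P :=
    fun k => ⟨Submodule.Quotient.equiv P P k.1 (mem_stab.1 k.2.2),
      k.1, k.2.1, mem_stab.1 k.2.2, fun v => rfl⟩
  refine Nat.card_congr (Equiv.ofBijective f ⟨?_, ?_⟩)
  · rintro ⟨k, hk, hkP⟩ ⟨l, hl, hlP⟩ h
    have h1 : ∀ v, P.mkQ (k v) = P.mkQ (l v) := fun v => by
      have h2 := congrArg (fun g : qGrp K P => (g : (V ⧸ P) ≃ₗ[F] (V ⧸ P)) (P.mkQ v)) h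
      exact h2
    have hkP' : im k P = P := hkP
    have hlP' : im l P = P := hlP
    have h3 : l⁻¹ * k = 1 := by
      apply hf _ (K.mul_mem (K.inv_mem hl) hk)
      · rw [im_mul, hkP', im_inv_of_eq hlP']
      · intro v
        have h4 : k v - l v ∈ P := (Submodule.Quotient.eq P).1 (h1 v)
        have h5 : l⁻¹ (k v - l v) ∈ P := by
          have : l⁻¹ (k v - l v) ∈ im l⁻¹ P := ⟨_, h4, rfl⟩
          rwa [im_inv_of_eq hlP'] at this
        rw [LinearEquiv.mul_apply]
        refine (Submodule.Quotient.eq P).2 ?_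
        have h6 : l⁻¹ (k v - l v) = l⁻¹ (k v) - v := by
          rw [map_sub]
          congr 1
          exact l.symm_apply_apply v
        rwa [h6] at h5
    have h4 : k = l := by
      have := congrArg (fun g => l * g) h3
      simpa using this
    exact Subtype.ext h4
  · rintro ⟨g, k, hk, hP, h⟩
    refine ⟨⟨k, hk, hP⟩, Subtype.ext (LinearEquiv.ext fun w => ?_)⟩
    obtain ⟨v, rfl⟩ := P.mkQ_surjective w
    exact (h v).symm

theorem card_eq [Finite F] [FiniteDimensional F V] (K : Subgroup (V ≃ₗ[F] V))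
    (P : Submodule F V) (hP : Pt P) (h2 : TwoTrans K) (hn : 2 ≤ finrank F V) (hf : FaithQ K P) :
    Nat.card K = br (Nat.card F) (finrank F V) * Nat.card (qGrp K P) := by
  have : Finite V := Module.finite_of_finite F
  have : Finite (V ≃ₗ[F] V) := Finite.of_injective (fun g : V ≃ₗ[F] V => (g : V → V))
    DFunLike.coe_injective
  have h1 := ncard_orbit K P
  have h3 : {y : Submodule F V | ∃ g ∈ K, g • P = y} = {y | Pt y} := by
    ext y
    constructor
    · rintro ⟨g, hg, rfl⟩
      exact hP.im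
    · intro hy
      have hy' : Pt y := hy
      obtain ⟨z, hz, hzP⟩ : ∃ z : Submodule F V, Pt z ∧ z ≠ P := by
        by_contra hc
        push Not at hc
        have h4 : (⊤ : Submodule F V) ≤ P := by
          apply le_of_pts
          intro x hx _
          exact (hc x hx).le
        have h5 : P = ⊤ := top_le_iff.1 h4
        rw [Pt, h5, finrank_top] at hP
        omega
      obtain ⟨z', hz', hz'y⟩ : ∃ z : Submodule F V, Pt z ∧ z ≠ y := by
        by_contra hc
        push Not at hc
        have h4 : (⊤ : Submodule F V) ≤ y := by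
          apply le_of_pts
          intro x hx _
          exact (hc x hx).le
        have h5 : y = ⊤ := top_le_iff.1 h4
        rw [Pt, h5, finrank_top] at hy'
        omega
      obtain ⟨g, hg, h6, _⟩ := h2 P z y z' hP hz hy' hz' hzP.symm hz'y.symm
      exact ⟨g, hg, h6⟩
  have h4 : Set.ncard {y : Submodule F V | Pt y} = br (Nat.card F) (finrank F V) := by
    rw [← card_pts, ← Nat.card_coe_set_eq]
    rfl
  rw [h3, h4] at h1
  rw [h1, ← card_stab K P hf, Subgroup.relIndex, mul_comm]
  have h7 := Subgroup.card_mul_index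
    ((K ⊓ MulAction.stabilizer (V ≃ₗ[F] V) P).subgroupOf K)
  rw [← h7]
  congr 1
  have h8 : K ⊓ MulAction.stabilizer (V ≃ₗ[F] V) P ≤ K := inf_le_left
  exact Nat.card_congr (Subgroup.subgroupOfEquivOfLe h8).toEquiv

theorem card_aut [Finite F] [FiniteDimensional F V] (hq : Nat.card F = 2) (h3 : finrank F V = 3) :
    Nat.card (V ≃ₗ[F] V) = 168 := by
  have : Fintype F := Fintype.ofFinite F
  let b : Basis (Fin 3) F V := finBasisOfFinrankEq F V h3
  have h1 : Nat.card (V ≃ₗ[F] V) = Nat.card (Matrix.GeneralLinearGroup (Fin 3) F) := by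
    refine Nat.card_congr ?_
    exact ((Matrix.GeneralLinearGroup.toLin' b).trans
      (LinearMap.GeneralLinearGroup.generalLinearEquiv F V)).symm.toEquiv
  rw [h1, Matrix.card_GL_field]
  rw [Nat.card_eq_fintype_card] at hq
  rw [Fin.prod_univ_three, hq]
  norm_num

theorem det_one [Finite F] (hq : Nat.card F = 2) [FiniteDimensional F V]
    (g : V ≃ₗ[F] V) : LinearMap.det (g : V →ₗ[F] V) = 1 := by
  have h1 : LinearMap.det (g : V →ₗ[F] V) ≠ 0 := (LinearEquiv.isUnit_det' g).ne_zero
  have : Fintype F := Fintype.ofFinite F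
  have h2 : LinearMap.det (g : V →ₗ[F] V) ^ (Fintype.card F - 1) = 1 :=
    FiniteField.pow_card_sub_one_eq_one _ h1
  rw [Nat.card_eq_fintype_card] at hq
  rw [hq] at h2
  simpa using h2

/-- hyperplanes not through `P`: there are `q^(n-1)` of them. -/
theorem card_hy_not [Finite F] [FiniteDimensional F V] (P : Submodule F V) (hP : Pt P) :
    Set.ncard {H : Submodule F V | Hy H ∧ ¬ P ≤ H} =
      (Nat.card F) ^ (finrank F V - 1) := by
  have : Finite V := Module.finite_of_finite F
  have : Finite (Submodule F V) := Finite.of_injective (fun S : Submodule F V => (S : Set V))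
    SetLike.coe_injective
  have h1 := card_hys_ge (⊥ : Submodule F V)
  have h2 := card_hys_ge P
  rw [finrank_bot] at h1
  have h3 : {H : Submodule F V | Hy H ∧ ¬ P ≤ H} =
      {H : Submodule F V | Hy H ∧ ⊥ ≤ H} \ {H : Submodule F V | Hy H ∧ P ≤ H} := by
    ext H
    simp only [Set.mem_setOf_eq, Set.mem_diff, bot_le, and_true, not_and]
    tauto
  rw [h3, Set.ncard_diff (by rintro H ⟨h, _⟩; exact ⟨h, bot_le⟩)]
  rw [← Nat.card_coe_set_eq, ← Nat.card_coe_set_eq]
  have h4 : Nat.card ↑{H : Submodule F V | Hy H ∧ ⊥ ≤ H} = br (Nat.card F) (finrank F V - 0) := h1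
  have h5 : Nat.card ↑{H : Submodule F V | Hy H ∧ P ≤ H} =
      br (Nat.card F) (finrank F V - finrank F P) := h2
  rw [h4, h5]
  have h6 : finrank F P = 1 := hP
  have h7 : finrank F P ≤ finrank F V := Submodule.finrank_le P
  rw [h6] at h7 ⊢
  obtain ⟨m, hm⟩ := Nat.exists_eq_add_of_le h7
  rw [hm, show 1 + m - 0 = m + 1 by omega, show 1 + m - 1 = m by omega, br_succ]
  omega

end

theorem s5c (hBR : GL4.BR2) : GL4.S5C := by
  intro F _ _ V _ _ _ K P hP hq h2 hf
  constructor
  · intro h4 hSL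
    have hc := card_eq K P hP h2 (by omega) hf
    have h3 : finrank F (V ⧸ P) = 3 := by
      have := Submodule.finrank_quotient_add_finrank P
      have h6 : finrank F P = 1 := hP
      omega
    have h5 : qGrp K P = ⊤ := by
      rw [eq_top_iff]
      intro g _
      exact hSL g (det_one hq g)
    rw [h5] at hc
    have h7 : Nat.card (⊤ : Subgroup ((V ⧸ P) ≃ₗ[F] (V ⧸ P))) = 168 := by
      rw [Subgroup.card_top]
      exact card_aut hq h3
    rw [hc, h7, h4, hq]
    decide
  · intro h5 hc
    have : Finite V := Module.finite_of_finite F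
    have : Finite (V ≃ₗ[F] V) := Finite.of_injective (fun g : V ≃ₗ[F] V => (g : V → V))
      DFunLike.coe_injective
    obtain ⟨_, _, hA⟩ := hBR F V K (by omega) h2
    set R := K ⊓ MulAction.stabilizer (V ≃ₗ[F] V) P with hR
    obtain ⟨H, hH, -, hPH⟩ := exists_hy_not_ge (T := (⊥ : Submodule F V)) (U := P)
      (by rw [le_bot_iff]; exact hP.ne_bot)
    have h1 := ncard_orbit R H
    have h6 : {y : Submodule F V | ∃ g ∈ R, g • H = y} = {y | Hy y ∧ ¬ P ≤ y} := by
      ext y
      constructor
      · rintro ⟨g, ⟨hg, hgP⟩, rfl⟩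
        have hgP' : im g P = P := hgP
        refine ⟨hH.im, fun hc => hPH ?_⟩
        have hc' : P ≤ im g H := hc
        rw [← hgP', im_le_im_iff] at hc'
        exact hc'
      · rintro ⟨hy, hPy⟩
        obtain ⟨g, hg, hgP, hgH⟩ := hA P H P y hP hH hP hy hPH hPy
        exact ⟨g, ⟨hg, hgP⟩, hgH⟩
    rw [h6, card_hy_not P hP, hq, h5] at h1
    have h8 : Nat.card R = 2520 := by rw [hR, card_stab K P hf, hc]
    have h9 : (R ⊓ MulAction.stabilizer (V ≃ₗ[F] V) H).relIndex R ∣ Nat.card R :=
      Subgroup.index_dvd_card _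
    rw [← h1, h8] at h9
    revert h9
    decide

end Pool.Agent.Helper16.S5CProof
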